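import Pool.Agent.Helper73.Dil.Pure

/-!
# KER, first part: the linear map `tc t`, area mean values, pointwise bounds
-/

open Topology Set Filter MeasureTheory Metric Real
open scoped ENNReal

namespace Pool.Agent.Helper53.Dil

open Pool.Agent.Helper73.Dil

/-! ### area mean value inequality -/

theorem circ_int {g : ℂ → ℂ} {w : ℂ} {ρ r : ℝ} (hg : DifferentiableOn ℂ g (ball w ρ))
    (hr : 0 < r) (hrρ : r < ρ) :
    ∫ θ in Ioo (-π) π, g (w + r * (Real.cos θ + Real.sin θ * Complex.I)) = 2 * π * g w := by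
  have h1 : DiffContOnCl ℂ g (ball w |r|) := by
    rw [abs_of_pos hr]
    apply DifferentiableOn.diffContOnCl
    rw [closure_ball w hr.ne']
    exact hg.mono (closedBall_subset_ball hrρ)
  have h2 := h1.circleAverage
  rw [Real.circleAverage_def] at h2
  have h3 : ∀ θ : ℝ, circleMap w r θ = w + r * (Real.cos θ + Real.sin θ * Complex.I) := by
    intro θ
    rw [circleMap, Complex.exp_mul_I, Complex.ofReal_cos, Complex.ofReal_sin]
  have h4 : ∫ θ in Ioo (-π) π, g (w + r * (Real.cos θ + Real.sin θ * Complex.I)) =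
      ∫ θ in (0 : ℝ)..2 * π, g (circleMap w r θ) := by
    rw [← integral_Ioc_eq_integral_Ioo, ← intervalIntegral.integral_of_le (by linarith [pi_pos])]
    have h5 : Function.Periodic (fun θ => g (circleMap w r θ)) (2 * π) := by
      intro θ
      simp only
      rw [periodic_circleMap w r θ]
    have h6 := h5.intervalIntegral_add_eq (-π) 0
    rw [zero_add, show -π + 2 * π = π by ring] at h6
    rw [← h6]
    apply intervalIntegral.integral_congr
    intro θ _
    simp only
    rw [h3]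
  rw [h4]
  have h5 : (2 * π : ℝ) ≠ 0 := by positivity
  have h6 : ∫ θ in (0 : ℝ)..2 * π, g (circleMap w r θ) = (2 * π : ℝ) • g w := by
    rw [← h2, smul_smul, mul_inv_cancel₀ h5, one_smul]
  rw [h6, Complex.real_smul]
  push_cast
  ring

/-- area mean value inequality -/
theorem area_mean {g : ℂ → ℂ} {w : ℂ} {ρ : ℝ} (hg : DifferentiableOn ℂ g (ball w ρ))
    (hρ : 0 < ρ) :
    ENNReal.ofReal (π * ρ ^ 2) * ‖g w‖ₑ ≤ ∫⁻ z in ball w ρ, ‖g z‖ₑ := by
  classical
  have hm : Measurable ((ball w ρ).indicator fun z => ‖g z‖ₑ) := by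
    rw [← Set.piecewise_eq_indicator]
    exact hg.continuousOn.enorm.measurable_piecewise continuousOn_const measurableSet_ball
  rw [← lintegral_indicator measurableSet_ball]
  have h1 : ∫⁻ z, (ball w ρ).indicator (fun z => ‖g z‖ₑ) z =
      ∫⁻ z, (ball w ρ).indicator (fun z => ‖g z‖ₑ) (w + z) :=
    (lintegral_add_left_eq_self _ w).symm
  rw [h1, ← Complex.lintegral_comp_polarCoord_symm]
  have h2 : polarCoord.target = Ioi (0 : ℝ) ×ˢ Ioo (-π) π := rfl
  rw [h2, Measure.volume_eq_prod, ← Measure.prod_restrict]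
  rw [lintegral_prod]
  · have key : ∀ r ∈ Ioo (0 : ℝ) ρ, ENNReal.ofReal (2 * π * r) * ‖g w‖ₑ ≤
        ∫⁻ θ in Ioo (-π) π, ENNReal.ofReal r • (ball w ρ).indicator (fun z => ‖g z‖ₑ)
          (w + Complex.polarCoord.symm (r, θ)) := by
      intro r hr
      have h3 : ∀ θ : ℝ, (ball w ρ).indicator (fun z => ‖g z‖ₑ)
          (w + Complex.polarCoord.symm (r, θ)) =
          ‖g (w + r * (Real.cos θ + Real.sin θ * Complex.I))‖ₑ := by
        intro θ
        rw [Complex.polarCoord_symm_apply, indicator_of_mem]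
        rw [mem_ball, dist_eq_norm, add_sub_cancel_left]
        have := Complex.norm_polarCoord_symm (r, θ)
        rw [Complex.polarCoord_symm_apply] at this
        rw [this, abs_of_pos hr.1]
        exact hr.2
      simp only [h3, smul_eq_mul]
      rw [lintegral_const_mul' _ _ ENNReal.ofReal_ne_top]
      have h4 := enorm_integral_le_lintegral_enorm (μ := volume.restrict (Ioo (-π) π))
        (fun θ : ℝ => g (w + r * (Real.cos θ + Real.sin θ * Complex.I)))
      rw [circ_int hg hr.1 hr.2] at h4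
      calc ENNReal.ofReal (2 * π * r) * ‖g w‖ₑ = ENNReal.ofReal r * ‖(2 * π * g w : ℂ)‖ₑ := by
            rw [enorm_mul, mul_comm (2 * π) r, ENNReal.ofReal_mul hr.1.le, mul_assoc]
            congr 2
            rw [show (2 * π : ℂ) = ((2 * π : ℝ) : ℂ) by push_cast; rfl, ← ofReal_norm,
              Complex.norm_real, Real.norm_of_nonneg (by positivity)]
        _ ≤ _ := by gcongr
    calc ENNReal.ofReal (π * ρ ^ 2) * ‖g w‖ₑ
        = ∫⁻ r in Ioo (0 : ℝ) ρ, ENNReal.ofReal (2 * π * r) * ‖g w‖ₑ := by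
          rw [lintegral_mul_const' _ _ enorm_ne_top]
          congr 1
          rw [← ofReal_integral_eq_lintegral_ofReal]
          · congr 1
            rw [← integral_Ioc_eq_integral_Ioo, ← intervalIntegral.integral_of_le hρ.le,
              intervalIntegral.integral_const_mul, integral_id]
            ring
          · apply IntegrableOn.mono_set (t := Icc 0 ρ) _ Ioo_subset_Icc_self
            apply Continuous.integrableOn_Icc
            fun_prop
          · rw [EventuallyLE, ae_restrict_iff' measurableSet_Ioo]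
            refine Eventually.of_forall fun r hr => ?_
            have := hr.1
            show (0 : ℝ) ≤ 2 * π * r
            positivity
      _ ≤ ∫⁻ r in Ioo (0 : ℝ) ρ, ∫⁻ θ in Ioo (-π) π, ENNReal.ofReal r •
          (ball w ρ).indicator (fun z => ‖g z‖ₑ) (w + Complex.polarCoord.symm (r, θ)) :=
          setLIntegral_mono' measurableSet_Ioo key
      _ ≤ _ := lintegral_mono_set Ioo_subset_Ioi_self
  · apply Measurable.aemeasurable
    apply Measurable.mul
    · fun_prop
    · apply hm.comp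
      apply Measurable.const_add
      have : (Complex.polarCoord.symm : ℝ × ℝ → ℂ) =
          fun p => (p.1 : ℂ) * (Real.cos p.2 + Real.sin p.2 * Complex.I) := by
        funext p
        exact Complex.polarCoord_symm_apply p
      rw [this]
      fun_prop

/-! ### the map `tc t` -/

/-- `tc t` as a linear map -/
noncomputable def tcL (t : ℂ) : ℂ →ₗ[ℝ] ℂ where
  toFun := tc t
  map_add' z w := by simp [tc]; ring
  map_smul' s z := by simp [tc]; ring

theorem tcL_apply (t z : ℂ) : tcL t z = tc t z := rfl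

theorem det_tcL (t : ℂ) : LinearMap.det (tcL t) = t.im := by
  rw [← LinearMap.det_toMatrix Complex.basisOneI, Matrix.det_fin_two]
  simp [LinearMap.toMatrix_apply, tcL, tc]

theorem tc_cont (t : ℂ) : Continuous (tc t) := by
  unfold tc; fun_prop

theorem tc_sub (t z w : ℂ) : tc t z - tc t w = tc t (z - w) := by
  simp [tc]; ring

theorem tc_add (t z w : ℂ) : tc t (z + w) = tc t z + tc t w := by
  simp [tc]; ring

theorem tc_smul (t : ℂ) (s : ℝ) (z : ℂ) : tc t (s * z) = s * tc t z := by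
  simp [tc]; ring

theorem tc_zero (t : ℂ) : tc t 0 = 0 := by simp [tc]

theorem tc_norm_le (t z : ℂ) : ‖tc t z‖ ≤ (1 + ‖t‖) * ‖z‖ := by
  unfold tc
  calc ‖(z.re : ℂ) + t * (z.im : ℂ)‖ ≤ ‖(z.re : ℂ)‖ + ‖t * (z.im : ℂ)‖ := norm_add_le _ _
    _ ≤ ‖z‖ + ‖t‖ * ‖z‖ := by
        rw [norm_mul, Complex.norm_real, Complex.norm_real, Real.norm_eq_abs, Real.norm_eq_abs]
        have h1 := Complex.abs_re_le_norm z
        have h2 := Complex.abs_im_le_norm z
        gcongr
    _ = _ := by ring

/-- lower bound for `tc t` -/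
noncomputable def sg (t : ℂ) : ℝ := t.im / (1 + 2 * ‖t‖)

theorem sg_pos {t : ℂ} (ht : t ∈ UH) : 0 < sg t := by
  have : 0 < t.im := ht
  unfold sg
  positivity

theorem sg_cont : Continuous sg := by
  unfold sg
  refine Complex.continuous_im.div (by fun_prop) (fun t => ?_)
  positivity

theorem sg_le {t : ℂ} (ht : t ∈ UH) (z : ℂ) : sg t * ‖z‖ ≤ ‖tc t z‖ := by
  have h0 : 0 < t.im := ht
  have h1 : ‖z‖ ≤ |z.re| + |z.im| := Complex.norm_le_abs_re_add_abs_im z
  have h2 : |z.im| * t.im ≤ ‖tc t z‖ := by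
    have : (tc t z).im = z.im * t.im := by simp [tc]; ring
    have h3 := Complex.abs_im_le_norm (tc t z)
    rw [this, abs_mul, abs_of_pos h0] at h3
    exact h3
  have h3 : |z.re| ≤ ‖tc t z‖ + ‖t‖ * |z.im| := by
    have h4 : (z.re : ℂ) = tc t z - t * (z.im : ℂ) := by simp [tc]
    calc |z.re| = ‖(z.re : ℂ)‖ := by rw [Complex.norm_real, Real.norm_eq_abs]
      _ ≤ ‖tc t z‖ + ‖t * (z.im : ℂ)‖ := by rw [h4]; exact norm_sub_le _ _
      _ = _ := by rw [norm_mul, Complex.norm_real, Real.norm_eq_abs]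
  have h4 : t.im ≤ ‖t‖ := (le_abs_self _).trans (Complex.abs_im_le_norm t)
  unfold sg
  rw [div_mul_eq_mul_div, div_le_iff₀ (by positivity)]
  have h5 : 0 ≤ ‖tc t z‖ := norm_nonneg _
  have h6 : 0 ≤ ‖t‖ := norm_nonneg _
  nlinarith [abs_nonneg z.im, abs_nonneg z.re, mul_nonneg h6 (abs_nonneg z.im)]

theorem tc_inj {t : ℂ} (ht : t ∈ UH) : Function.Injective (tc t) := by
  intro z w h
  have h1 := sg_le ht (z - w)
  rw [← tc_sub, h, sub_self, norm_zero] at h1
  have h2 := sg_pos ht
  have h3 : ‖z - w‖ ≤ 0 := by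
    by_contra hc
    push Not at hc
    nlinarith
  exact sub_eq_zero.1 (norm_le_zero_iff.1 h3)

/-- the inverse map -/
noncomputable def itc (t w : ℂ) : ℂ := ⟨w.re - t.re * (w.im / t.im), w.im / t.im⟩

theorem tc_itc {t : ℂ} (ht : t ∈ UH) (w : ℂ) : tc t (itc t w) = w := by
  have h0 : t.im ≠ 0 := ne_of_gt ht
  apply Complex.ext
  · simp [tc, itc]
  · simp [tc, itc]; field_simp

theorem ball_sub {t : ℂ} (ht : t ∈ UH) {z0 : ℂ} {r ρ : ℝ} (h : ρ ≤ sg t * r) :
    ball (tc t z0) ρ ⊆ tc t '' ball z0 r := by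
  intro w hw
  refine ⟨itc t w, ?_, tc_itc ht w⟩
  rw [mem_ball, dist_eq_norm] at hw ⊢
  have h1 := sg_le ht (itc t w - z0)
  rw [← tc_sub, tc_itc ht] at h1
  have h2 := sg_pos ht
  by_contra hc
  push Not at hc
  nlinarith

theorem om_open {t : ℂ} (ht : t ∈ UH) (z : ℂ) (r : ℝ) : IsOpen (tc t '' ball z r) := by
  have : tc t '' ball z r = itc t ⁻¹' ball z r := by
    ext w
    constructor
    · rintro ⟨z', hz, rfl⟩
      have : itc t (tc t z') = z' := tc_inj ht (tc_itc ht _)
      rw [mem_preimage, this]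
      exact hz
    · intro h
      exact ⟨_, h, tc_itc ht w⟩
  rw [this]
  apply isOpen_ball.preimage
  have h2 : itc t = fun w : ℂ => ((w.re - t.re * (w.im / t.im) : ℝ) : ℂ) +
      ((w.im / t.im : ℝ) : ℂ) * Complex.I := by
    funext w
    apply Complex.ext <;> simp [itc]
  rw [h2]
  fun_prop

theorem om_convex (t : ℂ) (z : ℂ) (r : ℝ) : Convex ℝ (tc t '' ball z r) :=
  (convex_ball z r).linear_image (tcL t)

/-- change of variables -/
theorem lint_tc {t : ℂ} (ht : t ∈ UH) {F : ℂ → ℝ≥0∞} (hF : Measurable F) :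
    ∫⁻ w, F w = ENNReal.ofReal t.im * ∫⁻ z, F (tc t z) := by
  have h0 : 0 < t.im := ht
  have h1 := Measure.map_linearMap_addHaar_eq_smul_addHaar (μ := (volume : Measure ℂ))
    (f := tcL t) (by rw [det_tcL]; exact h0.ne')
  have h2 : ∫⁻ z, F (tc t z) = ∫⁻ w, F w ∂(Measure.map (tcL t) volume) :=
    (lintegral_map hF (tc_cont t).measurable).symm
  rw [h2, h1, lintegral_smul_measure, det_tcL, smul_eq_mul, ← mul_assoc,
    ← ENNReal.ofReal_mul h0.le, abs_of_pos (inv_pos.2 h0), mul_inv_cancel₀ h0.ne',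
    ENNReal.ofReal_one, one_mul]

/-- pointwise bound for a holomorphic coefficient -/
theorem pt_bound {t : ℂ} (ht : t ∈ UH) {h : ℂ → ℂ} (hh : DifferentiableOn ℂ h (tc t '' B1))
    {z0 : ℂ} {ρ : ℝ} (hρ : 0 < ρ) (hb : ball (tc t z0) ρ ⊆ tc t '' B1) :
    ENNReal.ofReal (π * ρ ^ 2) * ‖h (tc t z0)‖ₑ ^ 2 ≤
      ENNReal.ofReal t.im * ∫⁻ z in B1, ‖h (tc t z)‖ₑ ^ 2 := by
  classical
  have h1 := area_mean (g := fun w => h w ^ 2) ((hh.mono hb).pow 2) hρ
  simp only [enorm_pow] at h1
  refine h1.trans ?_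
  have hm : Measurable ((ball (tc t z0) ρ).indicator fun w => ‖h w‖ₑ ^ 2) := by
    rw [← Set.piecewise_eq_indicator]
    apply ContinuousOn.measurable_piecewise _ continuousOn_const measurableSet_ball
    exact ((ENNReal.continuous_pow 2).comp_continuousOn (hh.mono hb).continuousOn.enorm)
  rw [← lintegral_indicator measurableSet_ball, lint_tc ht hm]
  refine mul_le_mul_right ?_ _
  rw [B1, ← lintegral_indicator measurableSet_ball]
  apply lintegral_mono
  intro z
  by_cases hz : tc t z ∈ ball (tc t z0) ρ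
  · obtain ⟨z', hz', he⟩ := hb hz
    have : z' = z := tc_inj ht he
    subst this
    simp only
    rw [indicator_of_mem hz, indicator_of_mem (show z' ∈ ball (0 : ℂ) 1 from hz')]
  · simp only
    rw [indicator_of_notMem hz]
    exact zero_le

end Pool.Agent.Helper53.Dil
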