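import Pool.Agent.Helper53.Dil.Area

/-!
# GRADB
-/

open Topology Set Filter MeasureTheory Metric Real
open scoped ENNReal

namespace Pool.Agent.Helper53.Dil

open Pool.Agent.Helper73.Dil

theorem lint_sq {f : ℂ → ℂ} (hf : IntegrableOn (fun z => ‖f z‖ ^ 2) B1) :
    ∫⁻ z in B1, ‖f z‖ₑ ^ 2 = ENNReal.ofReal (∫ z in B1, ‖f z‖ ^ 2) := by
  rw [ofReal_integral_eq_lintegral_ofReal hf (Eventually.of_forall fun z => by positivity)]
  apply lintegral_congr
  intro z
  rw [ENNReal.ofReal_pow (norm_nonneg _), ofReal_norm]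

theorem st_GRADB : ST_GRADB := by
  intro t ht
  have h0 : 0 < t.im := ht
  have hs := sg_pos ht
  refine ⟨√(t.im / (π * sg t ^ 2)), fun u hu hi => ?_⟩
  have hd : DifferentiableOn ℂ (deriv u) (tc t '' B1) := hu.deriv (om_open ht 0 1)
  have h1 := pt_bound ht hd (z0 := 0) (ρ := sg t) hs (by
    have := ball_sub ht (z0 := 0) (r := 1) (ρ := sg t) (by linarith)
    exact this)
  rw [tc_zero, lint_sq hi, ← ofReal_norm, ← ENNReal.ofReal_pow (norm_nonneg _),
    ← ENNReal.ofReal_mul (by positivity), ← ENNReal.ofReal_mul h0.le,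
    ENNReal.ofReal_le_ofReal_iff (mul_nonneg h0.le (integral_nonneg fun z => by positivity))] at h1
  rw [← Real.sqrt_mul (by positivity)]
  apply Real.le_sqrt_of_sq_le
  rw [div_mul_eq_mul_div, le_div_iff₀ (by positivity)]
  nlinarith

end Pool.Agent.Helper53.Dil
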