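import Pool.Agent.Helper53.Dil.Area

/-!
# KER: holomorphic families of (1,0) forms have potentials holomorphic in the parameter
-/

open Topology Set Filter MeasureTheory Metric Real
open scoped ENNReal

namespace Pool.Agent.Helper53.Dil

open Pool.Agent.Helper73.Dil

/-- the `L²` norm as a lower integral -/
theorem enorm_sq (f : Lp ℂ 2 (volume.restrict B1)) :
    ‖f‖ₑ ^ 2 = ∫⁻ z in B1, ‖f z‖ₑ ^ 2 := by
  rw [Lp.enorm_def, eLpNorm_eq_lintegral_rpow_enorm_toReal (by norm_num) (by norm_num)]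
  simp only [ENNReal.toReal_ofNat]
  rw [← ENNReal.rpow_natCast, ← ENNReal.rpow_mul]
  norm_num

/-- the bound `N t` -/
noncomputable def NB (t : ℂ) (x : ℝ) : ℝ := √(64 * t.im / (π * sg t ^ 2)) * x

theorem bound78 {t : ℂ} (ht : t ∈ UH) {f : Lp ℂ 2 (volume.restrict B1)} {h : ℂ → ℂ}
    (hh : DifferentiableOn ℂ h (tc t '' B1))
    (hf : f =ᵐ[volume.restrict B1] fun z => h (tc t z)) {z0 : ℂ} (hz : ‖z0‖ ≤ 7 / 8) :
    ‖h (tc t z0)‖ ≤ NB t ‖f‖ := by
  have h0 : 0 < t.im := ht
  have hs := sg_pos ht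
  have hb : ball (tc t z0) (sg t * (1 / 8)) ⊆ tc t '' B1 := by
    refine (ball_sub ht (r := 1 / 8) le_rfl).trans (image_mono ?_)
    intro z hz'
    rw [mem_ball, dist_eq_norm] at hz'
    show z ∈ ball (0 : ℂ) 1
    rw [mem_ball, dist_zero_right]
    calc ‖z‖ = ‖(z - z0) + z0‖ := by rw [sub_add_cancel]
      _ ≤ ‖z - z0‖ + ‖z0‖ := norm_add_le _ _
      _ < 1 := by linarith
  have h1 := pt_bound ht hh (z0 := z0) (ρ := sg t * (1 / 8)) (by positivity) hb
  have h2 : ∫⁻ z in B1, ‖h (tc t z)‖ₑ ^ 2 = ‖f‖ₑ ^ 2 := by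
    rw [enorm_sq]
    apply lintegral_congr_ae
    filter_upwards [hf] with z hz
    rw [hz]
  rw [h2, ← ofReal_norm, ← ofReal_norm, ← ENNReal.ofReal_pow (norm_nonneg _),
    ← ENNReal.ofReal_pow (norm_nonneg _), ← ENNReal.ofReal_mul (by positivity),
    ← ENNReal.ofReal_mul h0.le, ENNReal.ofReal_le_ofReal_iff (by positivity)] at h1
  have h3 : ‖h (tc t z0)‖ ^ 2 ≤ 64 * t.im / (π * sg t ^ 2) * ‖f‖ ^ 2 := by
    rw [div_mul_eq_mul_div, le_div_iff₀ (by positivity)]
    nlinarith
  have h4 : 0 ≤ NB t ‖f‖ := by unfold NB; positivity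
  apply le_of_sq_le_sq _ h4
  rw [NB, mul_pow, Real.sq_sqrt (by positivity)]
  exact h3
where
  le_of_sq_le_sq {a b : ℝ} (h : a ^ 2 ≤ b ^ 2) (hb : 0 ≤ b) : a ≤ b :=
    le_of_pow_le_pow_left₀ two_ne_zero hb h
  le_of_pow_le_pow_left₀ {a b : ℝ} {n : ℕ} (hn : n ≠ 0) (hb : 0 ≤ b) (h : a ^ n ≤ b ^ n) : a ≤ b :=
    le_of_not_gt fun hc => absurd h (not_le_of_gt (pow_lt_pow_left₀ hc hb hn))

/-- Lipschitz bound -/
noncomputable def LB (t : ℂ) (x : ℝ) : ℝ := NB t x / (sg t / 16) * (1 + ‖t‖)

theorem lip34 {t : ℂ} (ht : t ∈ UH) {f : Lp ℂ 2 (volume.restrict B1)} {h : ℂ → ℂ}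
    (hh : DifferentiableOn ℂ h (tc t '' B1))
    (hf : f =ᵐ[volume.restrict B1] fun z => h (tc t z)) {z z' : ℂ} (hz : ‖z‖ < 3 / 4)
    (hz' : ‖z'‖ < 3 / 4) :
    ‖h (tc t z) - h (tc t z')‖ ≤ LB t ‖f‖ * ‖z - z'‖ := by
  have hs := sg_pos ht
  have h1 : ∀ w ∈ tc t '' ball (0 : ℂ) (3 / 4), ‖deriv h w‖ ≤ NB t ‖f‖ / (sg t / 16) := by
    rintro w ⟨z1, hz1, rfl⟩
    rw [mem_ball, dist_zero_right] at hz1
    have hsub : closedBall (tc t z1) (sg t / 16) ⊆ tc t '' ball (0 : ℂ) (7 / 8) := by
      refine (closedBall_subset_ball (ε₂ := sg t * (1 / 8)) (by linarith)).trans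
        ((ball_sub ht (r := 1 / 8) le_rfl).trans (image_mono ?_))
      intro z hz'
      rw [mem_ball, dist_eq_norm] at hz'
      rw [mem_ball, dist_zero_right]
      calc ‖z‖ = ‖(z - z1) + z1‖ := by rw [sub_add_cancel]
        _ ≤ ‖z - z1‖ + ‖z1‖ := norm_add_le _ _
        _ < 7 / 8 := by linarith
    apply Complex.norm_deriv_le_of_forall_mem_sphere_norm_le (by positivity)
    · apply DifferentiableOn.diffContOnCl
      rw [closure_ball _ (by positivity)]
      apply hh.mono (hsub.trans (image_mono _))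
      apply ball_subset_ball
      norm_num
    · intro w hw
      obtain ⟨z2, hz2, rfl⟩ := hsub (sphere_subset_closedBall hw)
      rw [mem_ball, dist_zero_right] at hz2
      exact bound78 ht hh hf hz2.le
  have h2 : ∀ w ∈ tc t '' ball (0 : ℂ) (3 / 4), DifferentiableAt ℂ h w := by
    rintro w ⟨z1, hz1, rfl⟩
    apply (hh _ ⟨z1, ball_subset_ball (by norm_num) hz1, rfl⟩).differentiableAt
    exact (om_open ht 0 1).mem_nhds ⟨z1, ball_subset_ball (by norm_num) hz1, rfl⟩
  have h3 := (om_convex t 0 (3 / 4)).norm_image_sub_le_of_norm_deriv_le (f := h) h2 h1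
    (⟨z', by rwa [mem_ball, dist_zero_right], rfl⟩ : tc t z' ∈ tc t '' ball (0 : ℂ) (3 / 4))
    (⟨z, by rwa [mem_ball, dist_zero_right], rfl⟩ : tc t z ∈ tc t '' ball (0 : ℂ) (3 / 4))
  refine h3.trans ?_
  rw [tc_sub, LB, mul_assoc]
  apply mul_le_mul_of_nonneg_left (tc_norm_le _ _)
  unfold NB
  positivity

/-! ### the averaged kernel -/

/-- the set of the pairs `(s, w)` with `w` close to `s z` -/
def SS (z : ℂ) (ρ : ℝ) : Set (ℝ × ℂ) := {p | ‖p.2 - p.1 * z‖ < ρ}

theorem SS_open (z : ℂ) (ρ : ℝ) : IsOpen (SS z ρ) := by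
  unfold SS
  apply isOpen_lt _ continuous_const
  fun_prop

/-- the averaged kernel -/
noncomputable def kk (z : ℂ) (ρ : ℝ) (w : ℂ) : ℝ :=
  ∫ s in Ioc (0 : ℝ) 1, (SS z ρ).indicator (fun _ => (1 : ℝ)) (s, w)

theorem kk_meas (z : ℂ) (ρ : ℝ) : StronglyMeasurable (kk z ρ) := by
  unfold kk
  have h : StronglyMeasurable (fun p : ℂ × ℝ => (SS z ρ).indicator (fun _ => (1 : ℝ)) (p.2, p.1)) :=
    (stronglyMeasurable_const.indicator (SS_open z ρ).measurableSet).comp_measurable
      (measurable_snd.prodMk measurable_fst)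
  exact h.integral_prod_right'

theorem kk_le (z : ℂ) (ρ : ℝ) (w : ℂ) : ‖kk z ρ w‖ ≤ 1 := by
  unfold kk
  have := norm_setIntegral_le_of_norm_le_const (μ := (volume : Measure ℝ)) (s := Ioc (0 : ℝ) 1)
    (f := fun s => (SS z ρ).indicator (fun _ => (1 : ℝ)) (s, w)) (C := 1) (by simp)
    (fun s _ => by
      by_cases h : (s, w) ∈ SS z ρ
      · rw [indicator_of_mem h]; simp
      · rw [indicator_of_notMem h]; simp)
  simpa using this

theorem kk_memLp (z : ℂ) (ρ : ℝ) : MemLp (fun w => (kk z ρ w : ℂ)) 2 (volume.restrict B1) := by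
  have : IsFiniteMeasure (volume.restrict B1) := by
    unfold B1
    exact isFiniteMeasure_restrict.2 measure_ball_lt_top.ne
  apply MemLp.of_bound (C := 1)
  · exact (Complex.continuous_ofReal.comp_stronglyMeasurable (kk_meas z ρ)).aestronglyMeasurable
  · refine Eventually.of_forall fun w => ?_
    rw [Complex.norm_real]
    exact kk_le z ρ w

theorem kk_swap (z : ℂ) (ρ : ℝ) (f : Lp ℂ 2 (volume.restrict B1))
    (hsub : ∀ s ∈ Ioc (0 : ℝ) 1, ball (s * z) ρ ⊆ B1) :
    ∫ s in Ioc (0 : ℝ) 1, ∫ w in ball (s * z) ρ, f w =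
      ∫ w in B1, (kk z ρ w : ℂ) * f w := by
  have hfin : IsFiniteMeasure (volume.restrict B1) := by
    unfold B1
    exact isFiniteMeasure_restrict.2 measure_ball_lt_top.ne
  have hf : Integrable f (volume.restrict B1) := (Lp.memLp f).integrable (by norm_num)
  have h1 : ∀ s ∈ Ioc (0 : ℝ) 1, ∫ w in ball (s * z) ρ, f w =
      ∫ w in B1, (SS z ρ).indicator (fun p => f p.2) (s, w) := by
    intro s hs
    have h2 : (fun w => (SS z ρ).indicator (fun p : ℝ × ℂ => f p.2) (s, w)) =
        (ball (s * z) ρ).indicator (fun w => f w) := by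
      funext w
      by_cases h : w ∈ ball ((s : ℂ) * z) ρ
      · rw [indicator_of_mem h, indicator_of_mem]
        show ‖w - s * z‖ < ρ
        rwa [← dist_eq_norm]
      · rw [indicator_of_notMem h, indicator_of_notMem]
        intro hc
        apply h
        rw [mem_ball, dist_eq_norm]
        exact hc
    rw [h2, setIntegral_indicator measurableSet_ball, inter_eq_right.2 (hsub s hs)]
  rw [setIntegral_congr_fun measurableSet_Ioc h1]
  rw [integral_integral_swap]
  · apply integral_congr_ae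
    refine Eventually.of_forall fun w => ?_
    simp only
    unfold kk
    rw [← integral_complex_ofReal, ← integral_mul_const]
    apply integral_congr_ae
    refine Eventually.of_forall fun s => ?_
    simp only
    by_cases h : (s, w) ∈ SS z ρ
    · rw [indicator_of_mem h, indicator_of_mem h]; simp
    · rw [indicator_of_notMem h, indicator_of_notMem h]; simp
  · apply Integrable.indicator _ (SS_open z ρ).measurableSet
    exact hf.comp_snd _

/-- pairing with the kernel is holomorphic -/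
theorem kk_hol (z : ℂ) (ρ : ℝ) {c : ℂ → Lp ℂ 2 (volume.restrict B1)}
    (hc : DifferentiableOn ℂ c UH) :
    DifferentiableOn ℂ (fun t => ∫ w in B1, (kk z ρ w : ℂ) * c t w) UH := by
  have h1 : (fun t => ∫ w in B1, (kk z ρ w : ℂ) * c t w) =
      fun t => innerSL ℂ ((kk_memLp z ρ).toLp _) (c t) := by
    funext t
    rw [innerSL_apply_apply, L2.inner_def]
    apply integral_congr_ae
    filter_upwards [(kk_memLp z ρ).coeFn_toLp] with w hw
    rw [hw, RCLike.inner_apply, Complex.conj_ofReal, mul_comm]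
  rw [h1]
  exact (innerSL ℂ ((kk_memLp z ρ).toLp _)).differentiable.comp_differentiableOn hc

/-- average over a small disc -/
theorem avg_close {t : ℂ} (ht : t ∈ UH) {f : Lp ℂ 2 (volume.restrict B1)} {h : ℂ → ℂ}
    (hh : DifferentiableOn ℂ h (tc t '' B1))
    (hf : f =ᵐ[volume.restrict B1] fun z => h (tc t z)) {z0 : ℂ} {ρ : ℝ} (hρ : 0 < ρ)
    (hz : ‖z0‖ + ρ ≤ 3 / 4) :
    ‖(1 / (π * ρ ^ 2) : ℂ) * (∫ w in ball z0 ρ, f w) - h (tc t z0)‖ ≤ LB t ‖f‖ * ρ := by
  have hsub : ball z0 ρ ⊆ B1 := by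
    intro w hw
    rw [mem_ball, dist_eq_norm] at hw
    show w ∈ ball (0 : ℂ) 1
    rw [mem_ball, dist_zero_right]
    calc ‖w‖ = ‖(w - z0) + z0‖ := by rw [sub_add_cancel]
      _ ≤ ‖w - z0‖ + ‖z0‖ := norm_add_le _ _
      _ < 1 := by linarith
  have hw34 : ∀ w ∈ ball z0 ρ, ‖w‖ < 3 / 4 := by
    intro w hw
    rw [mem_ball, dist_eq_norm] at hw
    calc ‖w‖ = ‖(w - z0) + z0‖ := by rw [sub_add_cancel]
      _ ≤ ‖w - z0‖ + ‖z0‖ := norm_add_le _ _
      _ < 3 / 4 := by linarith
  have hvol : (volume : Measure ℂ).real (ball z0 ρ) = π * ρ ^ 2 := by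
    rw [Measure.real, Complex.volume_ball]
    rw [ENNReal.toReal_mul, ENNReal.toReal_pow, ENNReal.toReal_ofReal hρ.le]
    simp
    ring
  have hne : (π * ρ ^ 2 : ℂ) ≠ 0 := by
    have : (π * ρ ^ 2 : ℝ) ≠ 0 := by positivity
    exact_mod_cast this
  have hi : ∫ w in ball z0 ρ, f w = ∫ w in ball z0 ρ, h (tc t w) := by
    apply integral_congr_ae
    exact ae_restrict_of_ae_restrict_of_subset hsub hf
  have hρc : (ρ : ℂ) ≠ 0 := by exact_mod_cast hρ.ne'
  have hπc : (π : ℂ) ≠ 0 := by exact_mod_cast pi_ne_zero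
  have hint : IntegrableOn (fun w => h (tc t w)) (ball z0 ρ) := by
    have h1 : Integrable f (volume.restrict B1) := by
      have hfin : IsFiniteMeasure (volume.restrict B1) := by
        unfold B1
        exact isFiniteMeasure_restrict.2 measure_ball_lt_top.ne
      exact (Lp.memLp f).integrable (by norm_num)
    have h2 : IntegrableOn f (ball z0 ρ) := IntegrableOn.mono_set h1 hsub
    exact h2.congr (ae_restrict_of_ae_restrict_of_subset hsub hf)
  have h1 : (1 / (π * ρ ^ 2) : ℂ) * (∫ w in ball z0 ρ, f w) - h (tc t z0) =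
      (1 / (π * ρ ^ 2) : ℂ) * ∫ w in ball z0 ρ, (h (tc t w) - h (tc t z0)) := by
    rw [hi, integral_sub hint (integrableOn_const measure_ball_lt_top.ne), setIntegral_const, hvol,
      Complex.real_smul]
    push_cast
    field_simp
  rw [h1, norm_mul]
  have h2 : ‖∫ w in ball z0 ρ, (h (tc t w) - h (tc t z0))‖ ≤
      (LB t ‖f‖ * ρ) * (volume : Measure ℂ).real (ball z0 ρ) := by
    apply norm_setIntegral_le_of_norm_le_const measure_ball_lt_top
    intro w hw
    refine (lip34 ht hh hf (hw34 w hw) (by linarith)).trans ?_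
    have h3 : 0 ≤ LB t ‖f‖ := by
      have := sg_pos ht
      unfold LB NB
      positivity
    apply mul_le_mul_of_nonneg_left _ h3
    rw [mem_ball, dist_eq_norm] at hw
    exact hw.le
  rw [hvol] at h2
  have h3 : ‖(1 / (π * ρ ^ 2) : ℂ)‖ = 1 / (π * ρ ^ 2) := by
    rw [show (1 / (π * ρ ^ 2) : ℂ) = ((1 / (π * ρ ^ 2) : ℝ) : ℂ) by push_cast; rfl,
      Complex.norm_real, Real.norm_of_nonneg (by positivity)]
  rw [h3, div_mul_eq_mul_div, one_mul, div_le_iff₀ (by positivity)]
  exact h2

theorem NB_cont {c : ℂ → Lp ℂ 2 (volume.restrict B1)} (hc : DifferentiableOn ℂ c UH) :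
    ContinuousOn (fun t => NB t ‖c t‖) UH := by
  unfold NB
  apply ContinuousOn.mul _ hc.continuousOn.norm
  apply ContinuousOn.sqrt
  apply ContinuousOn.div
  · fun_prop
  · exact (continuous_const.mul (sg_cont.pow 2)).continuousOn
  · intro t ht
    have := sg_pos ht
    positivity

theorem LB_cont {c : ℂ → Lp ℂ 2 (volume.restrict B1)} (hc : DifferentiableOn ℂ c UH) :
    ContinuousOn (fun t => LB t ‖c t‖) UH := by
  unfold LB
  apply ContinuousOn.mul
  · apply ContinuousOn.div (NB_cont hc)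
    · exact (sg_cont.div_const 16).continuousOn
    · intro t ht
      have := sg_pos ht
      positivity
  · fun_prop

theorem uh_open : IsOpen UH := isOpen_lt continuous_const Complex.continuous_im

/-- KER -/
theorem st_KER (hW : ST_WEYL) : ST_KER := by
  intro c hc hcl
  have hex : ∀ t : ℂ, t ∈ UH → ∃ h : ℂ → ℂ, DifferentiableOn ℂ h (tc t '' B1) ∧
      c t =ᵐ[volume.restrict B1] fun z => h (tc t z) := fun t ht =>
    hW t (c t) ht (Lp.memLp _) (hcl t ht)
  choose! h hh hf using hex
  have hpr : ∀ t : ℂ, t ∈ UH → ∃ u : ℂ → ℂ, ∀ a ∈ tc t '' B1, HasDerivAt u (h t a) a := by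
    intro t ht
    obtain ⟨u, hu⟩ := (om_convex t 0 1).exists_forall_hasDerivWithinAt (hh t ht)
    exact ⟨u, fun a ha => (hu a ha).hasDerivAt ((om_open ht 0 1).mem_nhds ha)⟩
  choose! u hu using hpr
  have hmem : ∀ z : ℂ, z ∈ B1 ↔ ‖z‖ < 1 := fun z => by
    show z ∈ ball (0 : ℂ) 1 ↔ _
    rw [mem_ball, dist_zero_right]
  have hmemh : ∀ z : ℂ, z ∈ Bh ↔ ‖z‖ < 1 / 2 := fun z => by
    show z ∈ ball (0 : ℂ) (1 / 2) ↔ _
    rw [mem_ball, dist_zero_right]
  refine ⟨fun t z => u t (tc t z) - u t 0, ?_, ?_, ?_, ?_⟩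
  · intro t ht
    refine ⟨fun w => u t w - u t 0, ?_, fun z _ => rfl, ?_⟩
    · intro a ha
      exact ((hu t ht a ha).sub_const _).differentiableAt.differentiableWithinAt
    · have h1 := hf t ht
      rw [Filter.EventuallyEq, ae_restrict_iff' (by unfold B1; exact measurableSet_ball)] at h1 ⊢
      filter_upwards [h1] with z hz hzB
      rw [hz hzB]
      exact (((hu t ht _ ⟨z, hzB, rfl⟩).sub_const _).deriv).symm
  · intro t ht
    simp only
    rw [tc_zero, sub_self]
  · intro z hz
    rw [hmemh] at hz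
    -- integral formula
    have hI : ∀ t ∈ UH, u t (tc t z) - u t 0 =
        tc t z * ∫ s in Ioc (0 : ℝ) 1, h t (tc t (s * z)) := by
      intro t ht
      have hB : ∀ s ∈ Icc (0 : ℝ) 1, ((s : ℂ) * z) ∈ B1 := by
        intro s hs
        rw [hmem, norm_mul, Complex.norm_real, Real.norm_of_nonneg hs.1]
        nlinarith [norm_nonneg z, hs.1, hs.2]
      have h1 : ∀ s ∈ uIcc (0 : ℝ) 1, HasDerivAt (fun s : ℝ => u t (tc t (s * z)))
          (h t (tc t (s * z)) * tc t z) s := by
        intro s hs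
        rw [uIcc_of_le zero_le_one] at hs
        have h2 := hu t ht _ ⟨_, hB s hs, rfl⟩
        have h3 : HasDerivAt (fun s : ℝ => tc t (s * z)) (tc t z) s := by
          have h4 : (fun s : ℝ => tc t (s * z)) = fun s : ℝ => (s : ℂ) * tc t z := by
            funext s; exact tc_smul t s z
          rw [h4]
          simpa using (Complex.ofRealCLM.hasDerivAt (x := s)).mul_const (tc t z)
        exact h2.comp s h3
      have hcont : ContinuousOn (fun s : ℝ => h t (tc t (s * z))) (uIcc 0 1) := by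
        rw [uIcc_of_le zero_le_one]
        apply (hh t ht).continuousOn.comp
        · exact ((tc_cont t).comp (by fun_prop)).continuousOn
        · intro s hs
          exact ⟨_, hB s hs, rfl⟩
      have h5 := intervalIntegral.integral_eq_sub_of_hasDerivAt h1
        ((hcont.mul continuousOn_const).intervalIntegrable)
      rw [intervalIntegral.integral_mul_const, intervalIntegral.integral_of_le zero_le_one] at h5
      simp only [Complex.ofReal_one, one_mul, Complex.ofReal_zero, zero_mul, tc_zero] at h5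
      rw [← h5, mul_comm]
    -- approximations
    have happ : DifferentiableOn ℂ (fun t => ∫ s in Ioc (0 : ℝ) 1, h t (tc t (s * z))) UH := by
      have hlim : TendstoLocallyUniformlyOn (fun (n : ℕ) t =>
          (1 / (π * (1 / (n + 4 : ℝ)) ^ 2 : ℝ) : ℂ) *
            ∫ w in B1, (kk z (1 / (n + 4 : ℝ)) w : ℂ) * c t w)
          (fun t => ∫ s in Ioc (0 : ℝ) 1, h t (tc t (s * z))) atTop UH := by
        rw [tendstoLocallyUniformlyOn_iff_forall_isCompact uh_open]
        intro K hK hKc
        obtain ⟨M, hM⟩ := (hKc.image_of_continuousOn ((LB_cont hc).mono hK)).isBounded.exists_norm_le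
        rw [Metric.tendstoUniformlyOn_iff]
        intro ε hε
        have hM0 : 0 < |M| + 1 := by positivity
        obtain ⟨n0, hn0⟩ := exists_nat_gt ((|M| + 1) / ε)
        filter_upwards [eventually_ge_atTop n0] with n hn t htK
        have ht := hK htK
        set ρ : ℝ := 1 / (n + 4 : ℝ) with hρd
        have hρ : 0 < ρ := by positivity
        have hρ4 : ρ ≤ 1 / 4 := by
          rw [hρd, div_le_div_iff₀ (by positivity) (by norm_num)]
          have : (0 : ℝ) ≤ n := Nat.cast_nonneg n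
          linarith
        have hsz : ∀ s ∈ Ioc (0 : ℝ) 1, ‖(s : ℂ) * z‖ + ρ ≤ 3 / 4 := by
          intro s hs
          rw [norm_mul, Complex.norm_real, Real.norm_of_nonneg hs.1.le]
          nlinarith [norm_nonneg z, hs.1, hs.2]
        have hsub : ∀ s ∈ Ioc (0 : ℝ) 1, ball ((s : ℂ) * z) ρ ⊆ B1 := by
          intro s hs w hw
          rw [mem_ball, dist_eq_norm] at hw
          rw [hmem]
          have := hsz s hs
          calc ‖w‖ = ‖(w - s * z) + s * z‖ := by rw [sub_add_cancel]
            _ ≤ ‖w - s * z‖ + ‖(s : ℂ) * z‖ := norm_add_le _ _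
            _ < 1 := by linarith
        rw [← kk_swap z ρ (c t) hsub, ← integral_const_mul, dist_comm, dist_eq_norm]
        have hcont : ContinuousOn (fun s : ℝ => h t (tc t (s * z))) (Icc 0 1) := by
          apply (hh t ht).continuousOn.comp
          · exact ((tc_cont t).comp (by fun_prop)).continuousOn
          · intro s hs
            refine ⟨_, ?_, rfl⟩
            rw [hmem, norm_mul, Complex.norm_real, Real.norm_of_nonneg hs.1]
            nlinarith [norm_nonneg z, hs.1, hs.2]
        have hi1 : IntegrableOn (fun s : ℝ => h t (tc t (s * z))) (Ioc 0 1) :=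
          (hcont.integrableOn_compact isCompact_Icc).mono_set Ioc_subset_Icc_self
        have hi2 : IntegrableOn (fun s : ℝ => (1 / (π * ρ ^ 2 : ℝ) : ℂ) *
            ∫ w in ball ((s : ℂ) * z) ρ, c t w) (Ioc 0 1) := by
          apply Integrable.const_mul
          have hfin : IsFiniteMeasure (volume.restrict B1) := by
            unfold B1
            exact isFiniteMeasure_restrict.2 measure_ball_lt_top.ne
          have hf1 : Integrable (c t) (volume.restrict B1) := (Lp.memLp (c t)).integrable (by norm_num)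
          have h2 : Integrable (fun p : ℝ × ℂ => (SS z ρ).indicator (fun p => (c t) p.2) p)
              ((volume.restrict (Ioc (0 : ℝ) 1)).prod (volume.restrict B1)) := by
            apply Integrable.indicator _ (SS_open z ρ).measurableSet
            exact hf1.comp_snd _
          have h3 := h2.integral_prod_left
          refine h3.congr ?_
          rw [Filter.EventuallyEq, ae_restrict_iff' measurableSet_Ioc]
          refine Eventually.of_forall fun s hs => ?_
          have h4 : (fun w => (SS z ρ).indicator (fun p : ℝ × ℂ => (c t) p.2) (s, w)) =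
              (ball ((s : ℂ) * z) ρ).indicator (fun w => (c t) w) := by
            funext w
            by_cases hw : w ∈ ball ((s : ℂ) * z) ρ
            · rw [indicator_of_mem hw, indicator_of_mem]
              show ‖w - s * z‖ < ρ
              rwa [← dist_eq_norm]
            · rw [indicator_of_notMem hw, indicator_of_notMem]
              intro hc'
              apply hw
              rw [mem_ball, dist_eq_norm]
              exact hc'
          rw [h4, setIntegral_indicator measurableSet_ball, inter_eq_right.2 (hsub s hs)]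
        rw [← integral_sub hi2 hi1]
        have h5 : ‖∫ s in Ioc (0 : ℝ) 1, ((1 / (π * ρ ^ 2 : ℝ) : ℂ) *
            (∫ w in ball ((s : ℂ) * z) ρ, c t w) - h t (tc t (s * z)))‖ ≤
            (LB t ‖c t‖ * ρ) * (volume : Measure ℝ).real (Ioc (0 : ℝ) 1) := by
          apply norm_setIntegral_le_of_norm_le_const (by simp)
          intro s hs
          have := avg_close ht (hh t ht) (hf t ht) hρ (hsz s hs)
          push_cast
          exact this
        refine h5.trans_lt ?_
        have h6 : (volume : Measure ℝ).real (Ioc (0 : ℝ) 1) = 1 := by simp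
        rw [h6, mul_one]
        have h7 : LB t ‖c t‖ ≤ |M| := by
          have := hM _ ⟨t, htK, rfl⟩
          rw [Real.norm_eq_abs] at this
          exact (le_abs_self _).trans (this.trans (le_abs_self _))
        have h8 : (|M| + 1) * ρ < ε := by
          rw [hρd, mul_one_div, div_lt_iff₀ (by positivity)]
          rw [div_lt_iff₀ hε] at hn0
          have : (n0 : ℝ) ≤ n := by exact_mod_cast hn
          nlinarith
        calc LB t ‖c t‖ * ρ ≤ |M| * ρ := mul_le_mul_of_nonneg_right h7 hρ.le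
          _ ≤ (|M| + 1) * ρ := by nlinarith
          _ < ε := h8
      refine hlim.differentiableOn (Eventually.of_forall fun n => ?_) uh_open
      exact (kk_hol z _ hc).const_mul _
    have h9 : DifferentiableOn ℂ (fun t => tc t z * ∫ s in Ioc (0 : ℝ) 1, h t (tc t (s * z))) UH := by
      apply DifferentiableOn.mul _ happ
      unfold tc
      fun_prop
    exact h9.congr hI
  · intro K hK hKc
    obtain ⟨M, hM⟩ := (hKc.image_of_continuousOn (f := fun t => NB t ‖c t‖ * (1 + ‖t‖))
      (((NB_cont hc).mul (by fun_prop)).mono hK)).isBounded.exists_norm_le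
    refine ⟨M, fun t htK z hz z' hz' => ?_⟩
    have ht := hK htK
    rw [hmemh] at hz hz'
    simp only
    rw [sub_sub_sub_cancel_right]
    have h2 : ∀ w ∈ tc t '' ball (0 : ℂ) (1 / 2), DifferentiableAt ℂ (u t) w := by
      rintro w ⟨z1, hz1, rfl⟩
      exact (hu t ht _ ⟨z1, ball_subset_ball (by norm_num) hz1, rfl⟩).differentiableAt
    have h1 : ∀ w ∈ tc t '' ball (0 : ℂ) (1 / 2), ‖deriv (u t) w‖ ≤ NB t ‖c t‖ := by
      rintro w ⟨z1, hz1, rfl⟩
      rw [(hu t ht _ ⟨z1, ball_subset_ball (by norm_num) hz1, rfl⟩).deriv]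
      rw [mem_ball, dist_zero_right] at hz1
      exact bound78 ht (hh t ht) (hf t ht) (by linarith)
    have h3 := (om_convex t 0 (1 / 2)).norm_image_sub_le_of_norm_deriv_le (f := u t) h2 h1
      (⟨z', by rwa [mem_ball, dist_zero_right], rfl⟩ : tc t z' ∈ tc t '' ball (0 : ℂ) (1 / 2))
      (⟨z, by rwa [mem_ball, dist_zero_right], rfl⟩ : tc t z ∈ tc t '' ball (0 : ℂ) (1 / 2))
    refine h3.trans ?_
    rw [tc_sub]
    have hN : 0 ≤ NB t ‖c t‖ := by unfold NB; positivity
    calc NB t ‖c t‖ * ‖tc t (z - z')‖ ≤ NB t ‖c t‖ * ((1 + ‖t‖) * ‖z - z'‖) :=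
          mul_le_mul_of_nonneg_left (tc_norm_le _ _) hN
      _ = (NB t ‖c t‖ * (1 + ‖t‖)) * ‖z - z'‖ := by ring
      _ ≤ M * ‖z - z'‖ := by
          apply mul_le_mul_of_nonneg_right _ (norm_nonneg _)
          have := hM _ ⟨t, htK, rfl⟩
          rw [Real.norm_eq_abs] at this
          exact (le_abs_self _).trans this

end Pool.Agent.Helper53.Dil
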