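import Pool.Agent.Helper53.Dil.GRADB

/-!
# REG: the tube estimate
-/

open Topology Set Filter MeasureTheory Metric Real
open scoped ENNReal

namespace Pool.Agent.Helper53.Dil

open Pool.Agent.Helper73.Dil

theorem det_eq (g : G) : g.1 0 0 * g.1 1 1 - g.1 0 1 * g.1 1 0 = 1 := by
  have := g.2
  rw [Matrix.det_fin_two] at this
  exact this

theorem hs_sq (g : G) : hs g ^ 2 =
    g.1 0 0 ^ 2 + g.1 0 1 ^ 2 + g.1 1 0 ^ 2 + g.1 1 1 ^ 2 := by
  unfold hs
  rw [Real.sq_sqrt (by positivity)]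

theorem w1_pos (g : G) : 0 < g.1 0 0 ^ 2 + g.1 1 0 ^ 2 := by
  have h := det_eq g
  by_contra hc
  push Not at hc
  have h1 : g.1 0 0 = 0 := by nlinarith [sq_nonneg (g.1 0 0), sq_nonneg (g.1 1 0)]
  have h2 : g.1 1 0 = 0 := by nlinarith [sq_nonneg (g.1 0 0), sq_nonneg (g.1 1 0)]
  rw [h1, h2] at h
  norm_num at h

theorem tau_im (g : G) : (tau g).im = 1 / (g.1 0 0 ^ 2 + g.1 1 0 ^ 2) := by
  have h := det_eq g
  have h1 := w1_pos g
  unfold tau
  rw [Complex.div_im]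
  simp only [Complex.add_re, Complex.add_im, Complex.ofReal_re, Complex.ofReal_im, Complex.mul_re,
    Complex.mul_im, Complex.I_re, Complex.I_im, Complex.normSq_apply]
  have h2 : (g.1 0 0 + (0 * g.1 1 0 - 1 * 0)) * (g.1 0 0 + (0 * g.1 1 0 - 1 * 0)) +
    (0 + (0 * 0 + 1 * g.1 1 0)) * (0 + (0 * 0 + 1 * g.1 1 0)) = g.1 0 0 ^ 2 + g.1 1 0 ^ 2 := by ring
  rw [h2]
  field_simp
  linarith

theorem tau_uh (g : G) : tau g ∈ UH := by
  show 0 < (tau g).im
  rw [tau_im]
  have := w1_pos g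
  positivity

theorem tc_tau_sq (g : G) (z : ℂ) : ‖tc (tau g) z‖ ^ 2 = (tau g).im *
    ((g.1 0 0 * z.re + g.1 0 1 * z.im) ^ 2 + (g.1 1 0 * z.re + g.1 1 1 * z.im) ^ 2) := by
  have h1 := w1_pos g
  have hne : ((g.1 0 0 : ℂ) + Complex.I * g.1 1 0) ≠ 0 := by
    intro hc
    have h2 := congrArg Complex.re hc
    have h3 := congrArg Complex.im hc
    simp at h2 h3
    rw [h2, h3] at h1
    norm_num at h1
  have h2 : tc (tau g) z = (((g.1 0 0 * z.re + g.1 0 1 * z.im : ℝ) : ℂ) +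
      Complex.I * ((g.1 1 0 * z.re + g.1 1 1 * z.im : ℝ) : ℂ)) /
      ((g.1 0 0 : ℂ) + Complex.I * g.1 1 0) := by
    unfold tc tau
    rw [eq_div_iff hne, add_mul, div_mul_eq_mul_div, div_mul_cancel₀ _ hne]
    push_cast
    ring
  have h3 : ∀ x y : ℝ, ‖(x : ℂ) + Complex.I * y‖ ^ 2 = x ^ 2 + y ^ 2 := by
    intro x y
    rw [← Complex.normSq_eq_norm_sq, Complex.normSq_apply]
    simp
    ring
  rw [h2, norm_div, div_pow, h3, h3, tau_im]
  field_simp

theorem tc_tau_le (g : G) (z : ℂ) : ‖tc (tau g) z‖ ≤ √(tau g).im * hs g * ‖z‖ := by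
  have h0 : 0 < (tau g).im := tau_uh g
  have h1 : 0 ≤ hs g := Real.sqrt_nonneg _
  apply le_of_sq_le_sq' _ (by positivity)
  rw [mul_pow, mul_pow, Real.sq_sqrt h0.le, tc_tau_sq, hs_sq, ← Complex.normSq_eq_norm_sq,
    Complex.normSq_apply, mul_assoc]
  apply mul_le_mul_of_nonneg_left _ h0.le
  nlinarith [sq_nonneg (g.1 0 0 * z.im - g.1 0 1 * z.re), sq_nonneg (g.1 1 0 * z.im - g.1 1 1 * z.re)]
where
  le_of_sq_le_sq' {a b : ℝ} (h : a ^ 2 ≤ b ^ 2) (hb : 0 ≤ b) : a ≤ b := by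
    by_contra hc
    push Not at hc
    nlinarith

theorem tc_tau_ge (g : G) (z : ℂ) : √(tau g).im * ‖z‖ ≤ hs g * ‖tc (tau g) z‖ := by
  have h0 : 0 < (tau g).im := tau_uh g
  have h1 : 0 ≤ hs g := Real.sqrt_nonneg _
  apply tc_tau_le.le_of_sq_le_sq' _ (by positivity)
  rw [mul_pow, mul_pow, Real.sq_sqrt h0.le, tc_tau_sq, hs_sq, ← Complex.normSq_eq_norm_sq,
    Complex.normSq_apply, mul_left_comm]
  apply mul_le_mul_of_nonneg_left _ h0.le
  have hd := det_eq g
  set X := g.1 0 0 * z.re + g.1 0 1 * z.im with hX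
  set Y := g.1 1 0 * z.re + g.1 1 1 * z.im with hY
  have e1 : z.re = g.1 1 1 * X - g.1 0 1 * Y := by
    rw [hX, hY]; linear_combination (-z.re) * hd
  have e2 : z.im = g.1 0 0 * Y - g.1 1 0 * X := by
    rw [hX, hY]; linear_combination (-z.im) * hd
  rw [e1, e2]
  nlinarith [sq_nonneg (g.1 1 1 * Y + g.1 0 1 * X), sq_nonneg (g.1 0 0 * X + g.1 1 0 * Y)]

theorem hs_ge (g : G) : 1 ≤ hs g := by
  have h1 := hs_sq g
  have h2 := det_eq g
  have h3 : 0 ≤ hs g := Real.sqrt_nonneg _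
  by_contra hc
  push Not at hc
  nlinarith [sq_nonneg (g.1 0 0 - g.1 1 1), sq_nonneg (g.1 0 1 + g.1 1 0)]

/-- Cauchy-Schwarz -/
theorem cs {α : Type*} [MeasurableSpace α] (μ : Measure α) {F : α → ℝ≥0∞} (hF : AEMeasurable F μ) :
    (∫⁻ x, F x ∂μ) ^ 2 ≤ μ univ * ∫⁻ x, F x ^ 2 ∂μ := by
  have h1 := ENNReal.lintegral_mul_le_Lp_mul_Lq μ (p := 2) (q := 2)
    (by norm_num [Real.holderConjugate_iff]) hF (aemeasurable_const (b := (1 : ℝ≥0∞)))
  simp only [Pi.mul_apply, mul_one, ENNReal.one_rpow, lintegral_const, one_mul] at h1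
  have h2 : ∀ x : ℝ≥0∞, x ^ (2 : ℝ) = x ^ 2 := fun x => ENNReal.rpow_two x
  simp only [h2] at h1
  calc (∫⁻ x, F x ∂μ) ^ 2 ≤ ((∫⁻ x, F x ^ 2 ∂μ) ^ (1 / 2 : ℝ) * μ univ ^ (1 / 2 : ℝ)) ^ 2 := by
        gcongr
    _ = μ univ * ∫⁻ x, F x ^ 2 ∂μ := by
        rw [mul_pow, ← ENNReal.rpow_natCast, ← ENNReal.rpow_mul, ← ENNReal.rpow_natCast,
          ← ENNReal.rpow_mul]
        norm_num
        rw [mul_comm]

/-- the tube integral -/
theorem tube {H : ℂ → ℝ≥0∞} (hH : Measurable H) (w0 δ : ℂ) {r : ℝ} (hδ : δ ≠ 0) :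
    ∫⁻ s in Ioc (0 : ℝ) 1, ∫⁻ w in ball (0 : ℂ) r, H (w0 + w + s * δ) ≤
      ENNReal.ofReal (2 * r / ‖δ‖) * ∫⁻ w, H w := by
  classical
  have hδ' : 0 < ‖δ‖ := norm_pos_iff.2 hδ
  have h1 : ∀ s : ℝ, ∫⁻ w in ball (0 : ℂ) r, H (w0 + w + s * δ) =
      ∫⁻ w, (ball (0 : ℂ) r).indicator 1 (w - (w0 + s * δ)) * H w := by
    intro s
    rw [← lintegral_indicator measurableSet_ball]
    rw [← lintegral_add_right_eq_self (μ := (volume : Measure ℂ))
      (fun w => (ball (0 : ℂ) r).indicator 1 (w - (w0 + s * δ)) * H w) (w0 + s * δ)]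
    apply lintegral_congr
    intro w
    rw [add_sub_cancel_right]
    by_cases hw : w ∈ ball (0 : ℂ) r
    · rw [indicator_of_mem hw, indicator_of_mem hw, Pi.one_apply, one_mul]
      congr 1
      ring
    · rw [indicator_of_notMem hw, indicator_of_notMem hw, zero_mul]
  simp only [h1]
  have hm : Measurable (fun p : ℝ × ℂ =>
      (ball (0 : ℂ) r).indicator (1 : ℂ → ℝ≥0∞) (p.2 - (w0 + p.1 * δ)) * H p.2) := by
    apply Measurable.mul _ (hH.comp measurable_snd)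
    apply (measurable_one.indicator measurableSet_ball).comp
    fun_prop
  rw [lintegral_lintegral_swap hm.aemeasurable, ← lintegral_const_mul' _ _ ENNReal.ofReal_ne_top]
  apply lintegral_mono
  intro w
  simp only
  rw [lintegral_mul_const]
  · gcongr
    have h2 : (fun s : ℝ => (ball (0 : ℂ) r).indicator (1 : ℂ → ℝ≥0∞) (w - (w0 + s * δ))) =
        {s : ℝ | w - (w0 + s * δ) ∈ ball (0 : ℂ) r}.indicator 1 := by
      funext s
      by_cases hs : w - (w0 + s * δ) ∈ ball (0 : ℂ) r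
      · have hs2 : s ∈ {s : ℝ | w - (w0 + s * δ) ∈ ball (0 : ℂ) r} := hs
        rw [indicator_of_mem hs, indicator_of_mem hs2]; rfl
      · have hs2 : s ∉ {s : ℝ | w - (w0 + s * δ) ∈ ball (0 : ℂ) r} := hs
        rw [indicator_of_notMem hs, indicator_of_notMem hs2]
    rw [h2, lintegral_indicator_one]
    · calc (volume.restrict (Ioc (0 : ℝ) 1)) {s : ℝ | w - (w0 + s * δ) ∈ ball (0 : ℂ) r}
          ≤ volume {s : ℝ | w - (w0 + s * δ) ∈ ball (0 : ℂ) r} := Measure.restrict_apply_le _ _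
        _ ≤ ediam {s : ℝ | w - (w0 + s * δ) ∈ ball (0 : ℂ) r} := Real.volume_le_diam _
        _ ≤ ENNReal.ofReal (2 * r / ‖δ‖) := by
          apply ediam_le
          intro s hs s' hs'
          rw [edist_dist]
          apply ENNReal.ofReal_le_ofReal
          have hs1 : ‖w - (w0 + s * δ)‖ < r := by
            have : w - (w0 + s * δ) ∈ ball (0 : ℂ) r := hs
            rwa [mem_ball, dist_zero_right] at this
          have hs1' : ‖w - (w0 + s' * δ)‖ < r := by
            have : w - (w0 + s' * δ) ∈ ball (0 : ℂ) r := hs'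
            rwa [mem_ball, dist_zero_right] at this
          rw [le_div_iff₀ hδ', Real.dist_eq, ← Real.norm_eq_abs, ← Complex.norm_real, ← norm_mul]
          have h3 : ((s - s' : ℝ) : ℂ) * δ = (w - (w0 + s' * δ)) - (w - (w0 + s * δ)) := by
            push_cast; ring
          rw [h3]
          calc ‖(w - (w0 + s' * δ)) - (w - (w0 + s * δ))‖
              ≤ ‖w - (w0 + s' * δ)‖ + ‖w - (w0 + s * δ)‖ := norm_sub_le _ _
            _ ≤ 2 * r := by linarith
    · apply IsOpen.measurableSet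
      apply isOpen_ball.preimage
      fun_prop
  · apply (measurable_one.indicator measurableSet_ball).comp
    fun_prop

theorem st_REG : ST_REG := by
  classical
  intro g u hu hi z hz z' hz'
  set t := tau g with htd
  have ht : t ∈ UH := tau_uh g
  have h0 : 0 < t.im := ht
  have hsg := hs_ge g
  have hs0 : 0 < hs g := by linarith
  have hsq : 0 < √t.im := Real.sqrt_pos.2 h0
  have hmemh : ∀ z : ℂ, z ∈ Bh → ‖z‖ < 1 / 2 := fun z hz => by
    have : z ∈ ball (0 : ℂ) (1 / 2) := hz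
    rwa [mem_ball, dist_zero_right] at this
  have hz1 := hmemh z hz
  have hz1' := hmemh z' hz'
  set w0 := tc t z' with hw0
  set w1 := tc t z with hw1
  have hRnn : 0 ≤ 2 * hs g * √(t.im * ∫ z in B1, ‖deriv u (tc t z)‖ ^ 2) := by positivity
  by_cases hzz : z = z'
  · subst hzz
    rw [hw0, sub_self, norm_zero]
    exact hRnn
  set δ := w1 - w0 with hδ
  have hδ0 : δ ≠ 0 := by
    intro hc
    exact hzz (tc_inj ht (sub_eq_zero.1 hc))
  have hδn : 0 < ‖δ‖ := norm_pos_iff.2 hδ0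
  have hδz : δ = tc t (z - z') := by rw [hδ, hw1, hw0, tc_sub]
  set r := √t.im / (2 * hs g) with hr
  have hr0 : 0 < r := by positivity
  -- the tube is inside
  have hin : ∀ w ∈ ball (0 : ℂ) r, ∀ s ∈ Icc (0 : ℝ) 1, w0 + w + s * δ ∈ tc t '' B1 := by
    intro w hw s hsI
    refine ⟨z' + itc t w + s * (z - z'), ?_, ?_⟩
    · show _ ∈ ball (0 : ℂ) 1
      rw [mem_ball, dist_zero_right]
      have h1 : ‖itc t w‖ < 1 / 2 := by
        have h2 := tc_tau_ge g (itc t w)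
        rw [← htd, tc_itc ht] at h2
        rw [mem_ball, dist_zero_right] at hw
        have h3 : √t.im * ‖itc t w‖ < √t.im * (1 / 2) := by
          calc √t.im * ‖itc t w‖ ≤ hs g * ‖w‖ := h2
            _ < hs g * r := by gcongr
            _ = √t.im * (1 / 2) := by rw [hr]; field_simp
        exact lt_of_mul_lt_mul_left h3 hsq.le
      have h2 : z' + itc t w + s * (z - z') = ((1 - s : ℝ) : ℂ) * z' + (s : ℂ) * z + itc t w := by
        push_cast; ring
      rw [h2]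
      calc ‖((1 - s : ℝ) : ℂ) * z' + (s : ℂ) * z + itc t w‖
          ≤ ‖((1 - s : ℝ) : ℂ) * z'‖ + ‖(s : ℂ) * z‖ + ‖itc t w‖ := norm_add₃_le
        _ = (1 - s) * ‖z'‖ + s * ‖z‖ + ‖itc t w‖ := by
            rw [norm_mul, norm_mul, Complex.norm_real, Complex.norm_real,
              Real.norm_of_nonneg (by linarith [hsI.2]), Real.norm_of_nonneg hsI.1]
        _ < 1 := by nlinarith [hsI.1, hsI.2]
    · rw [tc_add, tc_add, tc_itc ht, tc_smul, ← hδz]
  -- area mean
  have hdiff : ∀ a ∈ tc t '' B1, HasDerivAt u (deriv u a) a := fun a ha =>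
    ((hu a ha).differentiableAt ((om_open ht 0 1).mem_nhds ha)).hasDerivAt
  have hA := area_mean (g := fun w => u (w1 + w) - u (w0 + w)) (w := 0) (ρ := r) (by
    intro w hw
    have e0 : w0 + w ∈ tc t '' B1 := by
      have := hin w hw 0 ⟨le_rfl, zero_le_one⟩
      simpa using this
    have e1 : w1 + w ∈ tc t '' B1 := by
      have := hin w hw 1 ⟨zero_le_one, le_rfl⟩
      have h2 : w0 + w + ((1 : ℝ) : ℂ) * δ = w1 + w := by rw [hδ]; push_cast; ring
      rwa [h2] at this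
    apply DifferentiableAt.differentiableWithinAt
    exact ((hdiff _ e1).comp_const_add w1 w).differentiableAt.sub
      ((hdiff _ e0).comp_const_add w0 w).differentiableAt) hr0
  simp only [add_zero] at hA
  -- the integrand
  set H : ℂ → ℝ≥0∞ := (tc t '' B1).indicator fun w => ‖deriv u w‖ₑ with hHd
  have hdd : DifferentiableOn ℂ (deriv u) (tc t '' B1) := hu.deriv (om_open ht 0 1)
  have hH : Measurable H := by
    rw [hHd, ← Set.piecewise_eq_indicator]
    exact hdd.continuousOn.enorm.measurable_piecewise continuousOn_const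
      (om_open ht 0 1).measurableSet
  have hFTC : ∀ w ∈ ball (0 : ℂ) r, ‖u (w1 + w) - u (w0 + w)‖ₑ ≤
      ‖δ‖ₑ * ∫⁻ s in Ioc (0 : ℝ) 1, H (w0 + w + s * δ) := by
    intro w hw
    have h1 : ∀ s ∈ uIcc (0 : ℝ) 1, HasDerivAt (fun s : ℝ => u (w0 + w + s * δ))
        (deriv u (w0 + w + s * δ) * δ) s := by
      intro s hsI
      rw [uIcc_of_le zero_le_one] at hsI
      have h2 := hdiff _ (hin w hw s hsI)
      have h3 : HasDerivAt (fun s : ℝ => w0 + w + s * δ) δ s := by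
        simpa using ((Complex.ofRealCLM.hasDerivAt (x := s)).mul_const δ).const_add (w0 + w)
      exact h2.comp s h3
    have hcont : ContinuousOn (fun s : ℝ => deriv u (w0 + w + s * δ)) (uIcc 0 1) := by
      rw [uIcc_of_le zero_le_one]
      apply hdd.continuousOn.comp
      · exact Continuous.continuousOn (by fun_prop)
      · intro s hsI
        exact hin w hw s hsI
    have h5 := intervalIntegral.integral_eq_sub_of_hasDerivAt h1
      ((hcont.mul continuousOn_const).intervalIntegrable)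
    rw [intervalIntegral.integral_mul_const, intervalIntegral.integral_of_le zero_le_one] at h5
    have h6 : w0 + w + ((1 : ℝ) : ℂ) * δ = w1 + w := by rw [hδ]; push_cast; ring
    have h7 : w0 + w + ((0 : ℝ) : ℂ) * δ = w0 + w := by simp
    rw [h6, h7] at h5
    rw [← h5, enorm_mul, mul_comm]
    gcongr
    refine (enorm_integral_le_lintegral_enorm _).trans ?_
    apply le_of_eq
    apply setLIntegral_congr_fun measurableSet_Ioc
    intro s hsI
    simp only
    rw [hHd, indicator_of_mem (hin w hw s ⟨hsI.1.le, hsI.2⟩)]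
  set μ2 : Measure (ℝ × ℂ) := (volume.restrict (Ioc (0 : ℝ) 1)).prod
    (volume.restrict (ball (0 : ℂ) r)) with hμ2
  have hmF : Measurable (fun p : ℝ × ℂ => H (w0 + p.2 + p.1 * δ)) := hH.comp (by fun_prop)
  have hJ : ∫⁻ w in ball (0 : ℂ) r, ∫⁻ s in Ioc (0 : ℝ) 1, H (w0 + w + s * δ) =
      ∫⁻ p, H (w0 + p.2 + p.1 * δ) ∂μ2 := by
    rw [hμ2, lintegral_prod_symm _ hmF.aemeasurable]
  have hJ2 := cs μ2 (F := fun p : ℝ × ℂ => H (w0 + p.2 + p.1 * δ)) hmF.aemeasurable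
  have hvol : μ2 univ = ENNReal.ofReal (π * r ^ 2) := by
    rw [hμ2, ← univ_prod_univ, Measure.prod_prod, Measure.restrict_apply_univ,
      Measure.restrict_apply_univ, Real.volume_Ioc, Complex.volume_ball]
    rw [sub_zero, ENNReal.ofReal_one, one_mul, ← ENNReal.ofReal_pow hr0.le,
      ← ENNReal.ofReal_coe_nnreal, ← ENNReal.ofReal_mul (by positivity), mul_comm]
    simp
  have hT : ∫⁻ p, H (w0 + p.2 + p.1 * δ) ^ 2 ∂μ2 ≤
      ENNReal.ofReal (2 * r / ‖δ‖) * ∫⁻ w, H w ^ 2 := by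
    rw [hμ2, lintegral_prod _ ((hmF.pow_const 2).aemeasurable)]
    exact tube (hH.pow_const 2) w0 δ hδ0
  have hE : ∫⁻ w, H w ^ 2 = ENNReal.ofReal (t.im * ∫ z in B1, ‖deriv u (tc t z)‖ ^ 2) := by
    rw [lint_tc ht (hH.pow_const 2), ENNReal.ofReal_mul h0.le, ← lint_sq hi]
    congr 1
    rw [B1, ← lintegral_indicator measurableSet_ball]
    apply lintegral_congr
    intro z
    by_cases hzB : z ∈ ball (0 : ℂ) 1
    · rw [indicator_of_mem hzB, hHd, indicator_of_mem (show tc t z ∈ tc t '' B1 from ⟨z, hzB, rfl⟩)]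
    · rw [indicator_of_notMem hzB, hHd, indicator_of_notMem]
      · simp
      · rintro ⟨z2, hz2, he⟩
        rw [tc_inj ht he] at hz2
        exact hzB hz2
  set Q := t.im * ∫ z in B1, ‖deriv u (tc t z)‖ ^ 2 with hQ
  have hQ0 : 0 ≤ Q := mul_nonneg h0.le (integral_nonneg fun z => by positivity)
  -- combination
  have hfin : (ENNReal.ofReal (π * r ^ 2) * ‖u w1 - u w0‖ₑ) ^ 2 ≤
      ‖δ‖ₑ ^ 2 * (ENNReal.ofReal (π * r ^ 2) * (ENNReal.ofReal (2 * r / ‖δ‖) *
        ENNReal.ofReal Q)) := by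
    calc (ENNReal.ofReal (π * r ^ 2) * ‖u w1 - u w0‖ₑ) ^ 2
        ≤ (∫⁻ w in ball (0 : ℂ) r, ‖u (w1 + w) - u (w0 + w)‖ₑ) ^ 2 := by gcongr
      _ ≤ (‖δ‖ₑ * ∫⁻ p, H (w0 + p.2 + p.1 * δ) ∂μ2) ^ 2 := by
          gcongr
          rw [← hJ, ← lintegral_const_mul' _ _ enorm_ne_top]
          exact setLIntegral_mono' measurableSet_ball hFTC
      _ = ‖δ‖ₑ ^ 2 * (∫⁻ p, H (w0 + p.2 + p.1 * δ) ∂μ2) ^ 2 := by rw [mul_pow]
      _ ≤ _ := by
          gcongr
          refine hJ2.trans ?_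
          rw [hvol]
          gcongr
          rw [← hE]
          exact hT
  rw [← ofReal_norm, ← ofReal_norm, ← ENNReal.ofReal_mul (by positivity),
    ← ENNReal.ofReal_pow (by positivity), ← ENNReal.ofReal_pow (by positivity),
    ← ENNReal.ofReal_mul (by positivity), ← ENNReal.ofReal_mul (by positivity),
    ← ENNReal.ofReal_mul (by positivity), ENNReal.ofReal_le_ofReal_iff (by positivity)] at hfin
  -- real computation
  set X := ‖u w1 - u w0‖ with hX
  have hX0 : 0 ≤ X := norm_nonneg _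
  have h1 : π * r * X ^ 2 ≤ 2 * ‖δ‖ * Q := by
    have h2 : (π * r ^ 2 * X) ^ 2 = (π * r ^ 3) * (π * r * X ^ 2) := by ring
    have h3 : ‖δ‖ ^ 2 * (π * r ^ 2 * (2 * r / ‖δ‖ * Q)) = (π * r ^ 3) * (2 * ‖δ‖ * Q) := by
      field_simp
    rw [h2, h3] at hfin
    exact le_of_mul_le_mul_left hfin (by positivity)
  have h2 : ‖δ‖ ≤ √t.im * hs g := by
    rw [hδz]
    refine (tc_tau_le g (z - z')).trans ?_
    have h3 : ‖z - z'‖ ≤ 1 := (norm_sub_le _ _).trans (by linarith)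
    calc √t.im * hs g * ‖z - z'‖ ≤ √t.im * hs g * 1 := by gcongr
      _ = _ := by ring
  have h3 : X ^ 2 ≤ (2 * hs g) ^ 2 * Q := by
    have h4 : π * r * X ^ 2 ≤ 2 * (√t.im * hs g) * Q := h1.trans (by gcongr)
    have h5 : 2 * (√t.im * hs g) = r * (2 * hs g) ^ 2 := by rw [hr]; field_simp
    rw [h5] at h4
    have h6 : r * X ^ 2 ≤ π * r * X ^ 2 := by
      have : (1 : ℝ) ≤ π := by linarith [pi_gt_three]
      have h7 : 0 ≤ r * X ^ 2 := by positivity
      nlinarith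
    have h8 : r * X ^ 2 ≤ r * ((2 * hs g) ^ 2 * Q) := by
      rw [← mul_assoc]; exact h6.trans h4
    exact le_of_mul_le_mul_left h8 hr0
  apply tc_tau_le.le_of_sq_le_sq' _ hRnn
  rw [mul_pow, Real.sq_sqrt hQ0]
  exact h3

end Pool.Agent.Helper53.Dil
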